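import Pool.Agent.N139.AS.Stm

set_option autoImplicit false
set_option linter.unusedSectionVars false

/-!
# AS/DENS: points fixed by `n⁻¹ t^j` satisfy both conditions with few exceptions (helper543)
-/

namespace Pool.Agent.N543.AS

open Finset Pool.Agent.N139.AS

/-! ### finite permutation groups -/

section perm

variable {X : Type} [Fintype X]

lemma card_filter_eq (E : X → Prop) [DecidablePred E] :
    Nat.card {x // E x} = (univ.filter E).card := by
  rw [Nat.card_eq_fintype_card, Fintype.card_subtype]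

lemma ct_eq (E : X → Prop) : ct E = (Nat.card {x // E x} : ℝ) := by
  classical
  unfold ct
  rw [card_filter_eq]

/-- cosets -/
lemma cosets (H : Subgroup (Equiv.Perm X)) (V : Equiv.Perm X → Prop) (m : ℕ)
    (s : Fin (m + 1) → Equiv.Perm X) (hs : ∀ k, s k ∈ H)
    (h : ∀ g ∈ H, ∀ g' ∈ H, V g → V g' → ∀ k k', k ≠ k' → s k * (s k')⁻¹ ≠ g⁻¹ * g') :
    (m + 1) * Nat.card {g : H // V g.1} ≤ Nat.card H := by
  have h1 : Nat.card (Fin (m + 1) × {g : H // V g.1}) ≤ Nat.card H := by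
    refine Nat.card_le_card_of_injective
      (fun q : Fin (m + 1) × {g : H // V g.1} => q.2.1 * (⟨s q.1, hs q.1⟩ : H)) ?_
    rintro ⟨k, ⟨g, hg⟩⟩ ⟨k', ⟨g', hg'⟩⟩ heq
    have heq' : g.1 * s k = g'.1 * s k' := congrArg Subtype.val heq
    have hkk : k = k' := by
      by_contra hne
      refine h g.1 g.2 g'.1 g'.2 hg hg' k k' hne ?_
      rw [eq_inv_mul_iff_mul_eq, ← mul_assoc, heq', mul_inv_cancel_right]
    subst hkk
    have : g = g' := Subtype.ext (mul_right_cancel heq')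
    subst this
    rfl
  rwa [Nat.card_prod, Nat.card_eq_fintype_card, Fintype.card_fin] at h1

/-- averaging over a group -/
lemma avg (H : Subgroup (Equiv.Perm X)) (E A P : X → Prop) (m : ℕ) (hEA : ∀ x, E x → A x)
    (hEP : ∀ x, E x → P x) (hA : ∀ g ∈ H, ∀ x, A x → A (g x))
    (hE : ∀ x, E x → (m + 1) * Nat.card {g : H // P (g.1 x)} ≤ Nat.card H) :
    (m + 1) * Nat.card {x // E x} ≤ Nat.card {x // A x} := by
  classical
  have h1 : ∀ y, (m + 1) * Nat.card {g : H // E (g.1⁻¹ y)} ≤ if A y then Nat.card H else 0 := by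
    intro y
    by_cases hex : ∃ g : H, E (g.1⁻¹ y)
    · obtain ⟨g₀, hg₀⟩ := hex
      have hAy : A y := by
        have := hA g₀.1 g₀.2 _ (hEA _ hg₀)
        rwa [← Equiv.Perm.mul_apply, mul_inv_cancel, Equiv.Perm.one_apply] at this
      rw [if_pos hAy]
      refine le_trans (Nat.mul_le_mul_left _ ?_) (hE _ hg₀)
      refine Nat.card_le_card_of_injective (fun g : {g : H // E (g.1⁻¹ y)} =>
        (⟨g.1⁻¹ * g₀, ?_⟩ : {g : H // P (g.1 (g₀.1⁻¹ y))})) ?_
      · have := hEP _ g.2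
        show P ((g.1.1⁻¹ * g₀.1) (g₀.1⁻¹ y))
        rwa [← Equiv.Perm.mul_apply, mul_inv_cancel_right]
      · intro g g' hgg
        have h2 : g.1⁻¹ * g₀ = g'.1⁻¹ * g₀ := congrArg Subtype.val hgg
        exact Subtype.ext (inv_injective (mul_right_cancel h2))
    · have : IsEmpty {g : H // E (g.1⁻¹ y)} := ⟨fun g => hex ⟨g.1, g.2⟩⟩
      rw [Nat.card_of_isEmpty, mul_zero]
      exact Nat.zero_le _
  have h2 := sum_le_sum fun y (_ : y ∈ (univ : Finset X)) => h1 y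
  rw [← mul_sum, ← sum_filter, sum_const, smul_eq_mul, ← card_filter_eq] at h2
  have h3 : ∑ y : X, Nat.card {g : H // E (g.1⁻¹ y)} = Nat.card H * Nat.card {x // E x} := by
    have : Fintype H := Fintype.ofFinite _
    have e1 : ∀ y : X, Nat.card {g : H // E (g.1⁻¹ y)} = ∑ g : H, if E (g.1⁻¹ y) then 1 else 0 := by
      intro y
      rw [Nat.card_eq_fintype_card, Fintype.card_subtype, card_filter]
    rw [sum_congr rfl fun y _ => e1 y, sum_comm]
    have e2 : ∀ g : H, ∑ y : X, (if E (g.1⁻¹ y) then 1 else 0) = Nat.card {x // E x} := by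
      intro g
      rw [card_filter_eq, card_filter]
      exact Equiv.sum_comp (g.1⁻¹ : Equiv.Perm X) (fun x => if E x then 1 else 0)
    rw [sum_congr rfl fun g _ => e2 g, sum_const, smul_eq_mul, card_univ,
      Nat.card_eq_fintype_card (α := H)]
  rw [h3] at h2
  have h4 : 0 < Nat.card H := Nat.card_pos
  refine Nat.le_of_mul_le_mul_left ?_ h4
  calc Nat.card H * ((m + 1) * Nat.card {x // E x})
      = (m + 1) * (Nat.card H * Nat.card {x // E x}) := by ring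
    _ ≤ _ := h2
    _ = _ := by ring

/-- few good points in the orbit -/
def Bad (H : Subgroup (Equiv.Perm X)) (P : X → Prop) (m : ℕ) (x : X) : Prop :=
  (m + 1) * Nat.card {g : H // P (g.1 x)} ≤ Nat.card H

lemma bad_iff (H : Subgroup (Equiv.Perm X)) (P : X → Prop) (m : ℕ) (x : X) {g : Equiv.Perm X}
    (hg : g ∈ H) : Bad H P m (g x) ↔ Bad H P m x := by
  unfold Bad
  have : Nat.card {h : H // P (h.1 (g x))} = Nat.card {h : H // P (h.1 x)} := by
    refine Nat.card_congr ((Equiv.mulRight (⟨g, hg⟩ : H)).subtypeEquiv fun h => ?_)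
    rfl
  rw [this]

/-- the maximal inequality for a chain of groups -/
lemma maximal (H : ℕ → Subgroup (Equiv.Perm X)) (hH : ∀ r r', r ≤ r' → H r ≤ H r') (P : X → Prop)
    (m R : ℕ) :
    (m + 1) * Nat.card {x // P x ∧ ∃ r, r ≤ R ∧ Bad (H r) P m x} ≤ Fintype.card X := by
  classical
  set f : X → ℕ := fun x => Nat.findGreatest (fun r => Bad (H r) P m x) R with hf
  have h1 : ∀ r, r ≤ R → (m + 1) * Nat.card {x // P x ∧ Bad (H r) P m x ∧ f x = r} ≤
      Nat.card {x // Bad (H r) P m x ∧ f x = r} := by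
    intro r hr
    refine avg (H r) _ _ P m (fun x hx => hx.2) (fun x hx => hx.1) ?_ (fun x hx => hx.2.1)
    rintro g hg x ⟨h2, h3⟩
    refine ⟨(bad_iff _ _ _ _ hg).mpr h2, ?_⟩
    rw [hf] at h3 ⊢
    dsimp only at h3 ⊢
    rw [Nat.findGreatest_eq_iff] at h3 ⊢
    refine ⟨h3.1, fun h0 => (bad_iff _ _ _ _ hg).mpr h2, fun r' h4 h5 h6 => ?_⟩
    exact h3.2.2 h4 h5 ((bad_iff _ _ _ _ (hH r r' h4.le hg)).mp h6)
  have h2 : Nat.card {x // P x ∧ ∃ r, r ≤ R ∧ Bad (H r) P m x} ≤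
      ∑ r ∈ range (R + 1), Nat.card {x // P x ∧ Bad (H r) P m x ∧ f x = r} := by
    rw [card_filter_eq, card_eq_sum_card_fiberwise (f := f) (t := range (R + 1))]
    · refine sum_le_sum fun r _ => ?_
      rw [card_filter_eq]
      refine card_le_card fun x hx => ?_
      rw [mem_filter, mem_filter] at hx
      rw [mem_filter]
      obtain ⟨⟨-, h3, r', h4, h5⟩, h6⟩ := hx
      refine ⟨mem_univ _, h3, ?_, h6⟩
      have := Nat.findGreatest_spec (P := fun r => Bad (H r) P m x) h4 h5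
      rw [← h6]
      exact this
    · intro x _
      rw [coe_range, Set.mem_Iio]
      exact Nat.lt_succ_of_le (Nat.findGreatest_le R)
  calc (m + 1) * Nat.card {x // P x ∧ ∃ r, r ≤ R ∧ Bad (H r) P m x}
      ≤ (m + 1) * ∑ r ∈ range (R + 1), Nat.card {x // P x ∧ Bad (H r) P m x ∧ f x = r} :=
        Nat.mul_le_mul_left _ h2
    _ = ∑ r ∈ range (R + 1), (m + 1) * Nat.card {x // P x ∧ Bad (H r) P m x ∧ f x = r} := by
        rw [mul_sum]
    _ ≤ ∑ r ∈ range (R + 1), Nat.card {x // Bad (H r) P m x ∧ f x = r} :=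
        sum_le_sum fun r hr => h1 r (Nat.lt_succ_iff.mp (mem_range.mp hr))
    _ ≤ ∑ r ∈ range (R + 1), (univ.filter fun x => f x = r).card := by
        refine sum_le_sum fun r _ => ?_
        rw [card_filter_eq]
        exact card_le_card fun x hx => by
          rw [mem_filter] at hx ⊢
          exact ⟨hx.1, hx.2.2⟩
    _ = Fintype.card X := by
        rw [← card_univ, card_eq_sum_card_fiberwise (s := univ) (f := f) (t := range (R + 1))]
        intro x _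
        rw [coe_range, Set.mem_Iio]
        exact Nat.lt_succ_of_le (Nat.findGreatest_le R)

end perm

/-! ### windows -/

lemma InL_mono {a b a' b' : ℤ} (h1 : a' ≤ a) (h2 : b ≤ b') {l : Lam} (h : InL a b l) :
    InL a' b' l :=
  fun i hi => ⟨h1.trans (h i hi).1, (h i hi).2.trans_le h2⟩

lemma W_mono (p : ℕ) {a b a' b' : ℤ} (h1 : a' ≤ a) (h2 : b ≤ b') : WN p a b ≤ WN p a' b' :=
  fun _ hx => ⟨InL_mono h1 h2 hx.1, fun y hy => InL_mono h1 h2 (hx.2 y hy)⟩

lemma W_shift (p : ℕ) {a b : ℤ} {x : NN p} (hx : x ∈ WN p a b) :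
    shN p x ∈ WN p (a + 1) (b + 1) := by
  have key : ∀ l : Lam, InL a b l → InL (a + 1) (b + 1) (shL l) := by
    intro l hl i hi
    rw [shL_apply] at hi
    have := hl _ hi
    omega
  refine ⟨key _ hx.1, fun y hy => ?_⟩
  have h1 : (shN p x).a y = x.a (shL.symm y) := rfl
  rw [h1] at hy
  have := key _ (hx.2 _ hy)
  rwa [AddEquiv.apply_symm_apply] at this

lemma W_pow (p : ℕ) {a b : ℤ} {x : NN p} (hx : x ∈ WN p a b) (j : ℕ) :
    ((shN p) ^ j) x ∈ WN p (a + j) (b + j) := by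
  induction j with
  | zero => simpa using hx
  | succ j ih =>
    rw [pow_succ', MulAut.mul_apply]
    have := W_shift p ih
    push_cast
    rwa [← add_assoc, ← add_assoc]

lemma SA_comm {p : ℕ} {x y : NN p} (hx : x ∈ SA p) (hy : y ∈ SA p) : x * y = y * x := by
  have hx' : x.l = 0 := hx
  have hy' : y.l = 0 := hy
  have h0 : ∀ a : Lam →₀ ZMod p, trl p 0 a = a := by
    intro a
    ext i
    rw [trl_apply, neg_zero, zero_add]
  ext1
  · rw [NN.mul_a, NN.mul_a, hx', hy', h0, h0, add_comm]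
  · rw [NN.mul_l, NN.mul_l, add_comm]

lemma SA_pow {p : ℕ} {x : NN p} (hx : x ∈ SA p) (j : ℕ) : ((shN p) ^ j) x ∈ SA p := by
  induction j with
  | zero => simpa using hx
  | succ j ih =>
    rw [pow_succ', MulAut.mul_apply]
    have ih' : (((shN p) ^ j) x).l = 0 := ih
    show shL (((shN p) ^ j) x).l = 0
    rw [ih', map_zero]

/-! ### the action -/

section act

variable {p K R : ℕ} {X : Type} {α : NN p → Equiv.Perm X} {t : Equiv.Perm X}

/-- the large window -/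
abbrev WW (p K R : ℕ) : Subgroup (NN p) := WN p (-((R + 2 * K : ℕ) : ℤ)) ((R + 2 * K : ℕ) : ℤ)

lemma act_one (h : Act (SS p) (R + 2 * K) α t) : α 1 = 1 := by
  have h1 := h.mul 1 (Subgroup.one_mem _) 1 (Subgroup.one_mem _)
  rw [mul_one] at h1
  exact (mul_eq_left.mp h1.symm)

lemma act_inv (h : Act (SS p) (R + 2 * K) α t) {x : NN p} (hx : x ∈ WW p K R) :
    α x⁻¹ = (α x)⁻¹ := by
  have h1 := h.mul x⁻¹ (Subgroup.inv_mem _ hx) x hx
  rw [inv_mul_cancel, act_one h] at h1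
  exact eq_inv_of_mul_eq_one_left h1.symm

lemma act_mul (h : Act (SS p) (R + 2 * K) α t) {x y : NN p} (hx : x ∈ WW p K R)
    (hy : y ∈ WW p K R) : α (x * y) = α x * α y := h.mul x hx y hy

lemma act_pow (h : Act (SS p) (R + 2 * K) α t) {d : NN p} (hd : d ∈ WN p (-R) R) (i : ℕ)
    (hi : i ≤ K) : t ^ i * α d = α (((shN p) ^ i) d) * t ^ i := by
  induction i with
  | zero => simp
  | succ i ih =>
    have h1 : ((shN p) ^ i) d ∈ WN p (-((R + 2 * K : ℕ) : ℤ)) (((R + 2 * K : ℕ) : ℤ) - 1) := by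
      refine W_mono p ?_ ?_ (W_pow p hd i)
      · push_cast
        linarith
      · push_cast
        have : (i : ℤ) + 1 ≤ K := by exact_mod_cast hi
        linarith
    have h2 := h.rel _ h1
    have h3 : (SS p).σ (((shN p) ^ i) d) = ((shN p) ^ (i + 1)) d := by
      rw [pow_succ', MulAut.mul_apply]
      rfl
    rw [h3] at h2
    rw [pow_succ', mul_assoc, ih (by omega), ← mul_assoc, h2, mul_assoc]

/-- image of a group contained in the window -/
def img (h : Act (SS p) (R + 2 * K) α t) (D : Subgroup (NN p)) (hD : D ≤ WW p K R) :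
    Subgroup (Equiv.Perm X) where
  carrier := {g | ∃ d ∈ D, α d = g}
  mul_mem' := by
    rintro _ _ ⟨d, hd, rfl⟩ ⟨e, he, rfl⟩
    exact ⟨d * e, D.mul_mem hd he, act_mul h (hD hd) (hD he)⟩
  one_mem' := ⟨1, D.one_mem, act_one h⟩
  inv_mem' := by
    rintro _ ⟨d, hd, rfl⟩
    exact ⟨d⁻¹, D.inv_mem hd, act_inv h (hD hd)⟩

variable {n : NN p} {j : ℕ}

/-- the element `d⁻¹ n⁻¹ σ^j(d) n` -/
noncomputable def cc (p : ℕ) (n : NN p) (j : ℕ) (d : NN p) : NN p := (n * d)⁻¹ * (((shN p) ^ j) d * n)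

lemma mem_big {r : ℕ} {d : NN p} (hd : d ∈ WN p (-r) r) (hj : j ≤ K) (hn : n ∈ WN p (-K) K) :
    d ∈ WN p (-((r + 2 * K : ℕ) : ℤ)) ((r + 2 * K : ℕ) : ℤ) ∧
      n ∈ WN p (-((r + 2 * K : ℕ) : ℤ)) ((r + 2 * K : ℕ) : ℤ) ∧
      ((shN p) ^ j) d ∈ WN p (-((r + 2 * K : ℕ) : ℤ)) ((r + 2 * K : ℕ) : ℤ) := by
  have hj' : (j : ℤ) ≤ K := by exact_mod_cast hj
  refine ⟨W_mono p ?_ ?_ hd, W_mono p ?_ ?_ hn, W_mono p ?_ ?_ (W_pow p hd j)⟩ <;> push_cast <;>
    linarith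

lemma cc_mem {r : ℕ} {d : NN p} (hd : d ∈ WN p (-r) r) (hj : j ≤ K) (hn : n ∈ WN p (-K) K) :
    cc p n j d ∈ WN p (-((r + 2 * K : ℕ) : ℤ)) ((r + 2 * K : ℕ) : ℤ) := by
  obtain ⟨h1, h2, h3⟩ := mem_big hd hj hn
  exact Subgroup.mul_mem _ (Subgroup.inv_mem _ (Subgroup.mul_mem _ h2 h1)) (Subgroup.mul_mem _ h3 h2)

lemma cmt_mem {r : ℕ} {d : NN p} (hd : d ∈ WN p (-r) r) (hj : j ≤ K) (hn : n ∈ WN p (-K) K) :
    cmt p n j d ∈ WN p (-((r + 2 * K : ℕ) : ℤ)) ((r + 2 * K : ℕ) : ℤ) := by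
  obtain ⟨h1, h2, h3⟩ := mem_big hd hj hn
  exact Subgroup.mul_mem _ (Subgroup.mul_mem _ (Subgroup.mul_mem _ (Subgroup.inv_mem _ h2) h3) h2)
    (Subgroup.inv_mem _ h1)

lemma cc_fix (h : Act (SS p) (R + 2 * K) α t) {d : NN p} (hd : d ∈ WN p (-R) R) (hj : j ≤ K)
    (hn : n ∈ WN p (-K) K) {x : X} (hx : (t ^ j) x = α n x)
    (hy : (t ^ j) (α d x) = α n (α d x)) : α (cc p n j d) x = x := by
  obtain ⟨h1, h2, h3⟩ := mem_big hd hj hn
  unfold cc
  have h4 := Subgroup.mul_mem _ h2 h1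
  have h5 := Subgroup.mul_mem _ h3 h2
  rw [act_mul h (Subgroup.inv_mem _ h4) h5, act_inv h h4, Equiv.Perm.mul_apply,
    Equiv.Perm.inv_eq_iff_eq, act_mul h h3 h2, act_mul h h2 h1, Equiv.Perm.mul_apply,
    Equiv.Perm.mul_apply, ← hx, ← hy, ← Equiv.Perm.mul_apply, ← Equiv.Perm.mul_apply,
    act_pow h hd j hj]

/-- `α (cmt d)` only depends on `α d` -/
lemma cmt_congr (h : Act (SS p) (R + 2 * K) α t) {d e : NN p} (hd : d ∈ WN p (-R) R)
    (he : e ∈ WN p (-R) R) (hj : j ≤ K) (hn : n ∈ WN p (-K) K) (hde : α d = α e) :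
    α (cmt p n j d) = α (cmt p n j e) := by
  obtain ⟨h1, h2, h3⟩ := mem_big hd hj hn
  obtain ⟨h4, -, h6⟩ := mem_big he hj hn
  have h7 : α (((shN p) ^ j) d) = α (((shN p) ^ j) e) := by
    have a1 := act_pow h hd j hj
    have a2 := act_pow h he j hj
    rw [hde, a2] at a1
    exact (mul_right_cancel a1).symm
  have h8 := Subgroup.mul_mem _ (Subgroup.inv_mem _ h2) h3
  have h9 := Subgroup.mul_mem _ (Subgroup.inv_mem _ h2) h6
  unfold cmt
  rw [act_mul h (Subgroup.mul_mem _ h8 h2) (Subgroup.inv_mem _ h1), act_mul h h8 h2,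
    act_mul h (Subgroup.inv_mem _ h2) h3, act_mul h (Subgroup.mul_mem _ h9 h2)
    (Subgroup.inv_mem _ h4), act_mul h h9 h2, act_mul h (Subgroup.inv_mem _ h2) h6,
    act_inv h h1, act_inv h h4, h7, hde]

end act

/-! ### the two conditions -/

section final

variable {p K R : ℕ} {X : Type} [Fintype X] {α : NN p → Equiv.Perm X} {t : Equiv.Perm X} {n : NN p}
  {j m : ℕ} {x : X}

lemma dA_le : SA p ⊓ WN p (-R) R ≤ WW p K R :=
  inf_le_right.trans (W_mono p (by push_cast; linarith) (by push_cast; linarith))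

lemma dL_le (r : ℕ) : SL p ⊓ WN p (-((min r R : ℕ) : ℤ)) ((min r R : ℕ) : ℤ) ≤ WW p K R := by
  have h1 : ((min r R : ℕ) : ℤ) ≤ R := by exact_mod_cast min_le_right r R
  exact inf_le_right.trans (W_mono p (by push_cast at h1 ⊢; linarith) (by push_cast at h1 ⊢; linarith))

lemma SA_conj {y : NN p} (hy : y ∈ SA p) (n : NN p) : n⁻¹ * y * n ∈ SA p := by
  have hy' : y.l = 0 := hy
  show (n⁻¹ * y * n).l = 0
  rw [NN.mul_l, NN.mul_l, NN.inv_l, hy', add_zero, neg_add_cancel]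

lemma cmt_SA {d d' : NN p} (hd : d ∈ SA p) (hd' : d' ∈ SA p) (n : NN p) (j : ℕ) :
    cmt p n j (d⁻¹ * d') = (cc p n j d)⁻¹ * cc p n j d' := by
  have hB := SA_conj (SA_pow hd' j) n
  calc cmt p n j (d⁻¹ * d') = (n⁻¹ * ((shN p) ^ j) d * n)⁻¹ *
      ((n⁻¹ * ((shN p) ^ j) d' * n) * (d'⁻¹ * d)) := by
        unfold cmt
        rw [map_mul, map_inv]
        group
    _ = (n⁻¹ * ((shN p) ^ j) d * n)⁻¹ * ((d * d'⁻¹) * (n⁻¹ * ((shN p) ^ j) d' * n)) := by
        rw [SA_comm hB ((SA p).mul_mem ((SA p).inv_mem hd') hd), SA_comm ((SA p).inv_mem hd') hd]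
    _ = _ := by
        unfold cc
        group

lemma le_WW {r : ℕ} (hr : r ≤ R) {d : NN p} (hd : d ∈ WN p (-r) r) :
    d ∈ WW p K R ∧ d ∈ WN p (-R) R := by
  have h1 : (r : ℤ) ≤ R := by exact_mod_cast hr
  exact ⟨W_mono p (by push_cast; linarith) (by push_cast; linarith) hd,
    W_mono p (by linarith) (by linarith) hd⟩

lemma WW_le {r : ℕ} (hr : r ≤ R) {d : NN p}
    (hd : d ∈ WN p (-((r + 2 * K : ℕ) : ℤ)) ((r + 2 * K : ℕ) : ℤ)) : d ∈ WW p K R := by
  have h1 : (r : ℤ) ≤ R := by exact_mod_cast hr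
  exact W_mono p (by push_cast; linarith) (by push_cast; linarith) hd

lemma prod_fix (h : Act (SS p) (R + 2 * K) α t) {r : ℕ} (hr : r ≤ R) {d d' : NN p}
    (hd : d ∈ WN p (-r) r) (hd' : d' ∈ WN p (-r) r) (hj : j ≤ K) (hn : n ∈ WN p (-K) K)
    (hx : (t ^ j) x = α n x) (hy : (t ^ j) (α d x) = α n (α d x))
    (hy' : (t ^ j) (α d' x) = α n (α d' x)) : α ((cc p n j d)⁻¹ * cc p n j d') x = x := by
  have h1 := WW_le hr (cc_mem hd hj hn)
  have h2 := WW_le hr (cc_mem hd' hj hn)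
  rw [act_mul h (Subgroup.inv_mem _ h1) h2, act_inv h h1, Equiv.Perm.mul_apply,
    cc_fix h (le_WW (K := K) hr hd').2 hj hn hx hy', Equiv.Perm.inv_eq_iff_eq,
    cc_fix h (le_WW (K := K) hr hd).2 hj hn hx hy]

lemma bad_CA (h : Act (SS p) (R + 2 * K) α t) (hj : j ≤ K) (hn : n ∈ WN p (-K) K)
    (hx : (t ^ j) x = α n x) (hc : ¬ CA p m R α x n j) :
    Bad (img h (SA p ⊓ WN p (-R) R) dA_le) (fun y => (t ^ j) y = α n y) m x := by
  unfold CA at hc
  push Not at hc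
  obtain ⟨s, hs, hk⟩ := hc
  refine cosets _ (fun g => (t ^ j) (g x) = α n (g x)) m (fun k => α (s k))
    (fun k => ⟨s k, ⟨(hs k).1, (hs k).2⟩, rfl⟩) ?_
  rintro _ ⟨d, hd, rfl⟩ _ ⟨d', hd', rfl⟩ hV hV' k k' hne heq
  apply hk k k' hne
  have w1 := le_WW (K := K) le_rfl (hs k).2
  have w2 := le_WW (K := K) le_rfl (hs k').2
  have w3 := le_WW (K := K) le_rfl hd.2
  have w4 := le_WW (K := K) le_rfl hd'.2
  have h1 : α (s k * (s k')⁻¹) = α (d⁻¹ * d') := by
    rw [act_mul h w1.1 (Subgroup.inv_mem _ w2.1), act_inv h w2.1,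
      act_mul h (Subgroup.inv_mem _ w3.1) w4.1, act_inv h w3.1]
    exact heq
  rw [cmt_congr h (Subgroup.mul_mem _ w1.2 (Subgroup.inv_mem _ w2.2))
    (Subgroup.mul_mem _ (Subgroup.inv_mem _ w3.2) w4.2) hj hn h1, cmt_SA hd.1 hd'.1]
  exact prod_fix h le_rfl hd.2 hd'.2 hj hn hx hV hV'

lemma bad_CL (h : Act (SS p) (R + 2 * K) α t) (hj : j ≤ K) (hn : n ∈ WN p (-K) K)
    (hx : (t ^ j) x = α n x) {r : ℕ} (hr : r ≤ R) (hD : SL p ⊓ WN p (-(r : ℤ)) r ≤ WW p K R)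
    (hc : ∃ s : Fin (m + 1) → NN p, (∀ k, s k ∈ SL p ∧ s k ∈ WN p (-r) r) ∧
      ∀ k k', k ≠ k' → ∀ a ∈ SA p, a ∈ WN p (-(r + 2 * K : ℕ)) (r + 2 * K : ℕ) →
        α (a * cmt p n j (s k * (s k')⁻¹)) x ≠ x) :
    Bad (img h (SL p ⊓ WN p (-(r : ℤ)) r) hD) (fun y => (t ^ j) y = α n y) m x := by
  obtain ⟨s, hs, hk⟩ := hc
  refine cosets _ (fun g => (t ^ j) (g x) = α n (g x)) m (fun k => α (s k))
    (fun k => ⟨s k, ⟨(hs k).1, (hs k).2⟩, rfl⟩) ?_
  rintro _ ⟨d, hd, rfl⟩ _ ⟨d', hd', rfl⟩ hV hV' k k' hne heq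
  have w1 := le_WW (K := K) hr (hs k).2
  have w2 := le_WW (K := K) hr (hs k').2
  have w3 := le_WW (K := K) hr hd.2
  have w4 := le_WW (K := K) hr hd'.2
  have h1 : α (s k * (s k')⁻¹) = α (d⁻¹ * d') := by
    rw [act_mul h w1.1 (Subgroup.inv_mem _ w2.1), act_inv h w2.1,
      act_mul h (Subgroup.inv_mem _ w3.1) w4.1, act_inv h w3.1]
    exact heq
  have he := Subgroup.mul_mem _ (Subgroup.inv_mem _ hd.2) hd'.2
  have he' := Subgroup.mul_mem _ (hs k).2 (Subgroup.inv_mem _ (hs k').2)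
  have m1 := cmt_mem he hj hn
  have m1' := cmt_mem he' hj hn
  have m2 := cc_mem hd.2 hj hn
  have m3 := cc_mem hd'.2 hj hn
  have m4 := Subgroup.mul_mem _ (Subgroup.mul_mem _ (Subgroup.inv_mem _ m2) m3)
    (Subgroup.inv_mem _ m1)
  refine hk k k' hne ((cc p n j d)⁻¹ * cc p n j d' * (cmt p n j (d⁻¹ * d'))⁻¹) ?_ m4 ?_
  · show ((cc p n j d)⁻¹ * cc p n j d' * (cmt p n j (d⁻¹ * d'))⁻¹).l = 0
    simp only [NN.mul_l, NN.inv_l, cc, cmt, map_mul, map_inv]
    abel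
  · rw [act_mul h (WW_le hr m4) (WW_le hr m1'),
      cmt_congr h (Subgroup.mul_mem _ w1.2 (Subgroup.inv_mem _ w2.2))
        (Subgroup.mul_mem _ (Subgroup.inv_mem _ w3.2) w4.2) hj hn h1,
      ← act_mul h (WW_le hr m4) (WW_le hr m1), inv_mul_cancel_right]
    exact prod_fix h hr hd.2 hd'.2 hj hn hx hV hV'

end final

theorem t_DENS : S_DENS := by
  intro p _ K m R X _ α t h j n hj0 hj hn
  classical
  set P : X → Prop := fun y => (t ^ j) y = α n y with hP
  set HA := img h (SA p ⊓ WN p (-R) R) dA_le with hHA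
  set HL : ℕ → Subgroup (Equiv.Perm X) := fun r =>
    img h (SL p ⊓ WN p (-((min r R : ℕ) : ℤ)) ((min r R : ℕ) : ℤ)) (dL_le r) with hHL
  have h1 : (m + 1) * Nat.card {x // P x ∧ Bad HA P m x} ≤ Fintype.card X := by
    have := avg HA (fun x => P x ∧ Bad HA P m x) (fun _ => True) P m (fun _ _ => trivial)
      (fun x hx => hx.1) (fun _ _ _ _ => trivial) (fun x hx => hx.2)
    rw [card_filter_eq (fun _ : X => True), filter_true, card_univ] at this
    exact this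
  have hmono : ∀ r r', r ≤ r' → HL r ≤ HL r' := by
    rintro r r' hrr _ ⟨d, hd, rfl⟩
    have h2 : ((min r R : ℕ) : ℤ) ≤ ((min r' R : ℕ) : ℤ) := by
      exact_mod_cast min_le_min_right R hrr
    exact ⟨d, ⟨hd.1, W_mono p (neg_le_neg h2) h2 hd.2⟩, rfl⟩
  have h2 := maximal HL hmono P m R
  have h3 : Nat.card {x // (t ^ j) x = α n x ∧ ¬ (CA p m R α x n j ∧ CL p m R K α x n j)} ≤
      Nat.card {x // P x ∧ Bad HA P m x} +
      Nat.card {x // P x ∧ ∃ r, r ≤ R ∧ Bad (HL r) P m x} := by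
    rw [card_filter_eq, card_filter_eq, card_filter_eq]
    refine (card_le_card fun x hx => ?_).trans (card_union_le _ _)
    rw [mem_filter] at hx
    obtain ⟨-, hx, hc⟩ := hx
    rw [mem_union, mem_filter, mem_filter]
    by_cases hA : CA p m R α x n j
    · right
      have hc' : ¬ CL p m R K α x n j := fun h' => hc ⟨hA, h'⟩
      unfold CL at hc'
      push Not at hc'
      obtain ⟨r, hr, s, hs, hk⟩ := hc'
      refine ⟨mem_univ _, hx, r, hr, bad_CL h hj hn hx (min_le_right r R) (dL_le r) ?_⟩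
      rw [min_eq_left hr]
      exact ⟨s, hs, hk⟩
    · left
      exact ⟨mem_univ _, hx, bad_CA h hj hn hx hA⟩
  rw [ct_eq]
  have h5 : ((m : ℝ) + 1) * (Nat.card {x // P x ∧ Bad HA P m x} : ℝ) ≤ Fintype.card X := by
    exact_mod_cast h1
  have h6 : ((m : ℝ) + 1) *
      (Nat.card {x // P x ∧ ∃ r, r ≤ R ∧ Bad (HL r) P m x} : ℝ) ≤ Fintype.card X := by
    exact_mod_cast h2
  have h7 := (Nat.cast_le (α := ℝ)).mpr h3
  rw [Nat.cast_add] at h7
  refine h7.trans ?_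
  rw [div_mul_eq_mul_div, le_div_iff₀ (by positivity)]
  linarith

end Pool.Agent.N543.AS
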